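import Mathlib

set_option autoImplicit false

namespace Pool.Agent.Lib.RHO4

open Finset

/-- `(tr M)² ≤ (inner dimension) * ‖M‖²` for `M = P Q` -/
theorem trace_sq_le {n J : Type} [Fintype n] [DecidableEq n] [Fintype J]
    (P : Matrix n J ℝ) (Q : Matrix J n ℝ) :
    (∑ i, (P * Q) i i) ^ 2 ≤ (Fintype.card J : ℝ) * ∑ i, ∑ j, ((P * Q) i j) ^ 2 := by
  classical
  set M : Matrix n n ℝ := P * Q with hM
  let col : n → EuclideanSpace ℝ n := fun j => WithLp.toLp 2 (fun i => M i j)
  let pc : J → EuclideanSpace ℝ n := fun k => WithLp.toLp 2 (fun i => P i k)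
  let R : Submodule ℝ (EuclideanSpace ℝ n) := Submodule.span ℝ (Set.range pc)
  have hcol : ∀ j, col j ∈ R := by
    intro j
    have : col j = ∑ k, Q k j • pc k := by
      ext i
      simp only [col, pc, hM, Matrix.mul_apply, WithLp.ofLp_sum, WithLp.ofLp_smul, Finset.sum_apply,
        Pi.smul_apply, smul_eq_mul]
      apply Finset.sum_congr rfl
      intro k _
      ring
    rw [this]
    exact Submodule.sum_mem _ (fun k _ => Submodule.smul_mem _ _ (Submodule.subset_span ⟨k, rfl⟩))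
  have hfin : Module.finrank ℝ R ≤ Fintype.card J := finrank_range_le_card pc
  let b := stdOrthonormalBasis ℝ R
  let c : n → R := fun j => ⟨col j, hcol j⟩
  have hMjj : ∀ j, M j j = ∑ t, (inner ℝ (b t) (c j) : ℝ) * ((b t : R) : EuclideanSpace ℝ n) j := by
    intro j
    have h1 := b.sum_repr' (c j)
    have h2 := congrArg (fun x : R => (x : EuclideanSpace ℝ n) j) h1
    simp only [Submodule.coe_sum, Submodule.coe_smul, WithLp.ofLp_sum, WithLp.ofLp_smul,
      Finset.sum_apply, Pi.smul_apply, smul_eq_mul] at h2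
    rw [h2]
  have hcs := Finset.sum_mul_sq_le_sq_mul_sq (Finset.univ : Finset (n × Fin (Module.finrank ℝ R)))
    (fun x => (inner ℝ (b x.2) (c x.1) : ℝ)) (fun x => ((b x.2 : R) : EuclideanSpace ℝ n) x.1)
  have h1 : ∑ i, M i i = ∑ x : n × Fin (Module.finrank ℝ R),
      (inner ℝ (b x.2) (c x.1) : ℝ) * ((b x.2 : R) : EuclideanSpace ℝ n) x.1 := by
    rw [Fintype.sum_prod_type]
    exact Finset.sum_congr rfl (fun j _ => hMjj j)
  have h2 : ∑ x : n × Fin (Module.finrank ℝ R), (inner ℝ (b x.2) (c x.1) : ℝ) ^ 2 =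
      ∑ i, ∑ j, (M i j) ^ 2 := by
    rw [Fintype.sum_prod_type, Finset.sum_comm (s := (Finset.univ : Finset n)) (t := (Finset.univ : Finset n))]
    apply Finset.sum_congr rfl
    intro j _
    have h3 := b.sum_sq_norm_inner_right (c j)
    simp only [Real.norm_eq_abs, sq_abs] at h3
    rw [h3]
    have h4 : ‖c j‖ = ‖col j‖ := rfl
    rw [h4, EuclideanSpace.real_norm_sq_eq]
  have h5 : ∑ x : n × Fin (Module.finrank ℝ R), (((b x.2 : R) : EuclideanSpace ℝ n) x.1) ^ 2 =
      (Module.finrank ℝ R : ℝ) := by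
    rw [Fintype.sum_prod_type_right]
    have h6 : ∀ t, ∑ j, (((b t : R) : EuclideanSpace ℝ n) j) ^ 2 = 1 := by
      intro t
      rw [← EuclideanSpace.real_norm_sq_eq]
      have h7 : ‖((b t : R) : EuclideanSpace ℝ n)‖ = ‖b t‖ := rfl
      rw [h7, b.orthonormal.1 t]
      norm_num
    simp only [h6]
    simp
  rw [h1]
  calc _ ≤ _ := hcs
    _ = (∑ i, ∑ j, (M i j) ^ 2) * (Module.finrank ℝ R : ℝ) := by rw [h2, h5]
    _ ≤ (Fintype.card J : ℝ) * ∑ i, ∑ j, (M i j) ^ 2 := by
        rw [mul_comm]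
        apply mul_le_mul_of_nonneg_right
        · exact_mod_cast hfin
        · positivity

end Pool.Agent.Lib.RHO4
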