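import Mathlib
import Pool.Agent.Lib.RHO4.A

set_option autoImplicit false

namespace Pool.Agent.Lib.RHO4

open Finset

/-- the set of subset sums of the elements with index in `W` -/
def sums {ι G : Type} [DecidableEq G] [AddCommGroup G] (s : ι → G) (W : Finset ι) : Finset G :=
  W.powerset.image (fun A => ∑ i ∈ A, s i)

/-- ordered triples of pairwise disjoint index sets with equal sums -/
def triples {ι G : Type} [Fintype ι] [DecidableEq ι] [DecidableEq G] [AddCommGroup G]
    (s : ι → G) : Finset (Finset ι × Finset ι × Finset ι) :=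
  univ.filter (fun t => Disjoint t.1 t.2.1 ∧ Disjoint t.1 t.2.2 ∧ Disjoint t.2.1 t.2.2 ∧
    ∑ i ∈ t.1, s i = ∑ i ∈ t.2.1, s i ∧ ∑ i ∈ t.2.1, s i = ∑ i ∈ t.2.2, s i)

/-- one letter -/
def mm (x y : ZMod 3) : ℤ := if y = x then 1 else if y = x + 1 then -1 else 0

def uu (x : ZMod 3) (b : Bool) : ℤ :=
  if x = 0 then -1 else if x = 1 then (if b then 0 else 1) else (if b then 1 else 0)

def vv (b : Bool) (y : ZMod 3) : ℤ :=
  if b then (if y = 0 then -1 else if y = 1 then 0 else 1)
  else (if y = 0 then 0 else if y = 1 then 1 else -1)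

theorem mm_eq : ∀ x y : ZMod 3, mm x y = uu x true * vv true y + uu x false * vv false y := by
  decide

theorem uu_ne : ∀ x : ZMod 3, (uu x true ≠ 0 → x ≠ 1) ∧ (uu x false ≠ 0 → x ≠ 2) := by
  decide

theorem mm_sq : ∀ x y : ZMod 3, (mm x y) ^ 2 = if (y = x ∨ y = x + 1) then 1 else 0 := by
  decide

theorem mm_self : ∀ x : ZMod 3, mm x x = 1 := by decide

section

variable {ι G : Type} [Fintype ι] [DecidableEq ι] [DecidableEq G] [AddCommGroup G]

def pw (w : ι → ZMod 3) (W : Finset ι) : ℤ := (∏ i ∈ W, uu (w i) true) * ∏ i ∈ univ \ W, uu (w i) false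

def qw (W : Finset ι) (w : ι → ZMod 3) : ℤ := (∏ i ∈ W, vv true (w i)) * ∏ i ∈ univ \ W, vv false (w i)

theorem prod_mm (w w' : ι → ZMod 3) : ∏ i, mm (w i) (w' i) = ∑ W : Finset ι, pw w W * qw W w' := by
  simp only [mm_eq]
  rw [Finset.prod_add]
  simp only [Finset.powerset_univ]
  apply Finset.sum_congr rfl
  intro W _
  unfold pw qw
  rw [Finset.prod_mul_distrib, Finset.prod_mul_distrib]
  ring

/-- the two sums of a word -/
def cls (s : ι → G) (w : ι → ZMod 3) : G × G :=
  (∑ i ∈ univ.filter (fun i => w i = 1), s i, ∑ i ∈ univ.filter (fun i => w i = 2), s i)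

theorem pw_ne (s : ι → G) (w : ι → ZMod 3) (W : Finset ι) (h : pw w W ≠ 0) :
    (cls s w).1 ∈ sums s Wᶜ ∧ (cls s w).2 ∈ sums s W := by
  unfold pw at h
  obtain ⟨h1, h2⟩ := mul_ne_zero_iff.1 h
  rw [Finset.prod_ne_zero_iff] at h1 h2
  constructor
  · unfold sums
    rw [Finset.mem_image]
    refine ⟨univ.filter (fun i => w i = 1), ?_, rfl⟩
    rw [Finset.mem_powerset]
    intro i hi
    rw [Finset.mem_filter] at hi
    rw [Finset.mem_compl]
    intro hiW
    exact (uu_ne (w i)).1 (h1 i hiW) hi.2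
  · unfold sums
    rw [Finset.mem_image]
    refine ⟨univ.filter (fun i => w i = 2), ?_, rfl⟩
    rw [Finset.mem_powerset]
    intro i hi
    rw [Finset.mem_filter] at hi
    by_contra hiW
    exact (uu_ne (w i)).2 (h2 i (by simp [hiW])) hi.2

/-- the index set of the factorisation -/
def jset (s : ι → G) : Finset (Finset ι × G × G) :=
  univ.biUnion (fun W : Finset ι => ((sums s Wᶜ) ×ˢ (sums s W)).image (fun p => (W, p)))

theorem mem_jset (s : ι → G) (x : Finset ι × G × G) :
    x ∈ jset s ↔ x.2.1 ∈ sums s x.1ᶜ ∧ x.2.2 ∈ sums s x.1 := by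
  unfold jset
  simp only [Finset.mem_biUnion, Finset.mem_univ, true_and, Finset.mem_image, Finset.mem_product,
    Prod.exists]
  constructor
  · rintro ⟨W, a, b, ⟨h1, h2⟩, h3⟩
    rw [← h3]
    exact ⟨h1, h2⟩
  · rintro ⟨h1, h2⟩
    exact ⟨x.1, x.2.1, x.2.2, ⟨h1, h2⟩, rfl⟩

theorem card_jset (s : ι → G) :
    (jset s).card ≤ ∑ W : Finset ι, (sums s Wᶜ).card * (sums s W).card := by
  unfold jset
  refine le_trans Finset.card_biUnion_le ?_
  apply Finset.sum_le_sum
  intro W _
  refine le_trans Finset.card_image_le ?_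
  rw [Finset.card_product]

/-- the matrix of the classes -/
theorem fac (s : ι → G) :
    ∃ (P : Matrix (ι → ZMod 3) (jset s) ℝ) (Q : Matrix (jset s) (ι → ZMod 3) ℝ),
      ∀ w w', (P * Q) w w' = if cls s w = cls s w' then ((∏ i, mm (w i) (w' i) : ℤ) : ℝ) else 0 := by
  refine ⟨fun w x => if cls s w = x.1.2 then ((pw w x.1.1 : ℤ) : ℝ) else 0,
    fun x w => if cls s w = x.1.2 then ((qw x.1.1 w : ℤ) : ℝ) else 0, ?_⟩
  intro w w'
  rw [Matrix.mul_apply]
  by_cases hc : cls s w = cls s w'
  · rw [if_pos hc, prod_mm]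
    push_cast
    have h1 : ∑ x : (jset s), (if cls s w = x.1.2 then ((pw w x.1.1 : ℤ) : ℝ) else 0) *
        (if cls s w' = x.1.2 then ((qw x.1.1 w' : ℤ) : ℝ) else 0) =
        ∑ x ∈ jset s, (if cls s w = x.2 then ((pw w x.1 : ℤ) : ℝ) * ((qw x.1 w' : ℤ) : ℝ) else 0) := by
      rw [← Finset.sum_coe_sort (jset s)
        (fun x => (if cls s w = x.2 then ((pw w x.1 : ℤ) : ℝ) * ((qw x.1 w' : ℤ) : ℝ) else 0))]
      apply Finset.sum_congr rfl
      intro x _
      rw [← hc]
      by_cases hx : cls s w = x.1.2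
      · simp [hx]
      · simp [hx]
    rw [h1]
    have h2 : ∑ W : Finset ι, ((pw w W : ℤ) : ℝ) * ((qw W w' : ℤ) : ℝ) =
        ∑ W ∈ univ.filter (fun W : Finset ι => pw w W ≠ 0), ((pw w W : ℤ) : ℝ) * ((qw W w' : ℤ) : ℝ) := by
      rw [Finset.sum_filter]
      apply Finset.sum_congr rfl
      intro W _
      by_cases h0 : pw w W = 0
      · simp [h0]
      · simp [h0]
    rw [h2]
    symm
    apply Finset.sum_of_injOn (fun W : Finset ι => ((W, cls s w) : Finset ι × G × G))
    · intro W _ W' _ h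
      exact (Prod.ext_iff.1 h).1
    · intro W hW
      rw [Finset.mem_coe, Finset.mem_filter] at hW
      rw [Finset.mem_coe, mem_jset]
      exact pw_ne s w W hW.2
    · intro x hx hx'
      by_cases hxc : cls s w = x.2
      · rw [if_pos hxc]
        have h0 : pw w x.1 = 0 := by
          by_contra h0
          apply hx'
          refine ⟨x.1, ?_, ?_⟩
          · rw [Finset.mem_coe, Finset.mem_filter]
            exact ⟨Finset.mem_univ _, h0⟩
          · show (x.1, cls s w) = x
            rw [hxc]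
        simp [h0]
      · rw [if_neg hxc]
    · intro W _
      simp
  · rw [if_neg hc]
    apply Finset.sum_eq_zero
    intro x _
    by_cases hx : cls s w = x.1.2
    · have : ¬ cls s w' = x.1.2 := by
        intro h
        exact hc (hx.trans h.symm)
      simp [this]
    · simp [hx]

end

end Pool.Agent.Lib.RHO4
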