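import Mathlib
import Pool.Agent.Lib.RHO4.B

set_option autoImplicit false

namespace Pool.Agent.Lib.RHO4

open Finset

section

variable {ι G : Type} [Fintype ι] [DecidableEq ι] [DecidableEq G] [AddCommGroup G]

/-- pairs of words of one class differing by steps `+1` -/
def prs (s : ι → G) : Finset ((ι → ZMod 3) × (ι → ZMod 3)) :=
  univ.filter (fun p => cls s p.1 = cls s p.2 ∧ ∀ i, p.2 i = p.1 i ∨ p.2 i = p.1 i + 1)

def dd (p : (ι → ZMod 3) × (ι → ZMod 3)) (j : ZMod 3) : Finset ι :=
  univ.filter (fun i => p.2 i ≠ p.1 i ∧ p.1 i = j)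

theorem sum_dd (s : ι → G) (p : (ι → ZMod 3) × (ι → ZMod 3))
    (h : ∀ i, p.2 i = p.1 i ∨ p.2 i = p.1 i + 1) (j : ZMod 3) :
    ∑ i ∈ univ.filter (fun i => p.2 i = j), s i + ∑ i ∈ dd p j, s i =
      ∑ i ∈ univ.filter (fun i => p.1 i = j), s i + ∑ i ∈ dd p (j - 1), s i := by
  unfold dd
  simp only [Finset.sum_filter]
  rw [← Finset.sum_add_distrib, ← Finset.sum_add_distrib]
  apply Finset.sum_congr rfl
  intro i _
  have key : ∀ x y j : ZMod 3, (y = x ∨ y = x + 1) →
      ((if y = j then (1 : ℤ) else 0) + (if y ≠ x ∧ x = j then 1 else 0) =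
        (if x = j then 1 else 0) + (if y ≠ x ∧ x = j - 1 then 1 else 0)) := by decide
  have := key (p.1 i) (p.2 i) j (h i)
  have h2 : ∀ (c : Prop) [Decidable c], (if c then s i else 0) = (if c then (1 : ℤ) else 0) • s i := by
    intro c _
    split_ifs <;> simp
  rw [h2 (p.2 i = j), h2 (p.2 i ≠ p.1 i ∧ p.1 i = j), h2 (p.1 i = j),
    h2 (p.2 i ≠ p.1 i ∧ p.1 i = j - 1), ← add_smul, ← add_smul, this]

theorem card_prs (s : ι → G) :
    (prs s).card ≤ ∑ t ∈ triples s, 3 ^ (Fintype.card ι - (t.1.card + t.2.1.card + t.2.2.card)) := by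
  let fr : Finset ι × Finset ι × Finset ι → Finset (ι → ZMod 3) := fun t =>
    Fintype.piFinset (fun i => if i ∈ t.1 ∪ t.2.1 ∪ t.2.2 then {0} else univ)
  have hfr : ∀ t ∈ triples s,
      (fr t).card = 3 ^ (Fintype.card ι - (t.1.card + t.2.1.card + t.2.2.card)) := by
    intro t ht
    unfold triples at ht
    rw [Finset.mem_filter] at ht
    obtain ⟨_, h1, h2, h3, _⟩ := ht
    have hc : (t.1 ∪ t.2.1 ∪ t.2.2).card = t.1.card + t.2.1.card + t.2.2.card := by
      rw [Finset.card_union_of_disjoint (Finset.disjoint_union_left.2 ⟨h2, h3⟩),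
        Finset.card_union_of_disjoint h1]
    show (Fintype.piFinset _).card = _
    rw [Fintype.card_piFinset, ← hc, ← Finset.card_compl]
    have : ∀ i, (if i ∈ t.1 ∪ t.2.1 ∪ t.2.2 then ({0} : Finset (ZMod 3)) else univ).card =
        if i ∈ (t.1 ∪ t.2.1 ∪ t.2.2)ᶜ then 3 else 1 := by
      intro i
      by_cases hi : i ∈ t.1 ∪ t.2.1 ∪ t.2.2
      · rw [if_pos hi, if_neg (by rw [Finset.mem_compl]; exact fun h => h hi)]
        simp
      · rw [if_neg hi, if_pos (by rw [Finset.mem_compl]; exact hi)]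
        rw [Finset.card_univ, ZMod.card]
    simp only [this]
    rw [Finset.prod_ite, Finset.prod_const, Finset.prod_const_one, mul_one]
    congr 1
    congr 1
    ext i
    simp
  have h1 : ∑ t ∈ triples s, 3 ^ (Fintype.card ι - (t.1.card + t.2.1.card + t.2.2.card)) =
      ((triples s).sigma fr).card := by
    rw [Finset.card_sigma]
    exact Finset.sum_congr rfl (fun t ht => (hfr t ht).symm)
  rw [h1]
  apply Finset.card_le_card_of_injOn
    (fun p => (⟨(dd p 0, dd p 1, dd p 2), fun i => if p.2 i ≠ p.1 i then 0 else p.1 i⟩ :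
      (_ : Finset ι × Finset ι × Finset ι) × (ι → ZMod 3)))
  · intro p hp
    rw [Finset.mem_coe] at hp ⊢
    unfold prs at hp
    rw [Finset.mem_filter] at hp
    obtain ⟨_, hc, hs⟩ := hp
    rw [Finset.mem_sigma]
    constructor
    · unfold triples
      rw [Finset.mem_filter]
      have dj : ∀ a b : ZMod 3, a ≠ b → Disjoint (dd p a) (dd p b) := by
        intro a b hab
        rw [Finset.disjoint_left]
        intro i hi hi'
        unfold dd at hi hi'
        rw [Finset.mem_filter] at hi hi'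
        exact hab (hi.2.2.symm.trans hi'.2.2)
      refine ⟨Finset.mem_univ _, dj 0 1 (by decide), dj 0 2 (by decide), dj 1 2 (by decide), ?_, ?_⟩
      · have e1 := sum_dd s p hs 1
        have e2 : ∑ i ∈ univ.filter (fun i => p.1 i = 1), s i =
            ∑ i ∈ univ.filter (fun i => p.2 i = 1), s i := (Prod.ext_iff.1 hc).1
        rw [e2] at e1
        have e3 := add_left_cancel e1
        have e4 : (1 : ZMod 3) - 1 = 0 := by decide
        rw [e4] at e3
        exact e3.symm
      · have e1 := sum_dd s p hs 2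
        have e2 : ∑ i ∈ univ.filter (fun i => p.1 i = 2), s i =
            ∑ i ∈ univ.filter (fun i => p.2 i = 2), s i := (Prod.ext_iff.1 hc).2
        rw [e2] at e1
        have e3 := add_left_cancel e1
        have e4 : (2 : ZMod 3) - 1 = 1 := by decide
        rw [e4] at e3
        exact e3.symm
    · show _ ∈ fr _
      rw [Fintype.mem_piFinset]
      intro i
      show (if p.2 i ≠ p.1 i then 0 else p.1 i) ∈
        (if i ∈ dd p 0 ∪ dd p 1 ∪ dd p 2 then ({0} : Finset (ZMod 3)) else univ)
      by_cases hi : p.2 i ≠ p.1 i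
      · rw [if_pos hi]
        split_ifs <;> simp
      · rw [if_neg hi]
        have : i ∉ (dd p 0 ∪ dd p 1 ∪ dd p 2) := by
          unfold dd
          simp only [Finset.mem_union, Finset.mem_filter, Finset.mem_univ, true_and]
          tauto
        rw [if_neg this]
        exact Finset.mem_univ _
  · intro p hp q hq hpq
    simp only [Sigma.mk.injEq, Prod.mk.injEq, heq_eq_eq] at hpq
    obtain ⟨⟨h0, h1', h2⟩, hf⟩ := hpq
    rw [Finset.mem_coe] at hp hq
    unfold prs at hp hq
    rw [Finset.mem_filter] at hp hq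
    have hj : ∀ j : ZMod 3, dd p j = dd q j := by
      intro j
      fin_cases j
      · exact h0
      · exact h1'
      · exact h2
    have hne : ∀ i, (p.2 i ≠ p.1 i) → (q.2 i ≠ q.1 i ∧ q.1 i = p.1 i) := by
      intro i hi
      have h3 : i ∈ dd p (p.1 i) := by
        unfold dd
        rw [Finset.mem_filter]
        exact ⟨Finset.mem_univ _, hi, rfl⟩
      rw [hj] at h3
      unfold dd at h3
      rw [Finset.mem_filter] at h3
      exact h3.2
    have hne' : ∀ i, (q.2 i ≠ q.1 i) → (p.2 i ≠ p.1 i ∧ p.1 i = q.1 i) := by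
      intro i hi
      have h3 : i ∈ dd q (q.1 i) := by
        unfold dd
        rw [Finset.mem_filter]
        exact ⟨Finset.mem_univ _, hi, rfl⟩
      rw [← hj] at h3
      unfold dd at h3
      rw [Finset.mem_filter] at h3
      exact h3.2
    have hp1 : p.1 = q.1 := by
      funext i
      by_cases hi : p.2 i ≠ p.1 i
      · exact (hne i hi).2.symm
      · have hi' : ¬ (q.2 i ≠ q.1 i) := fun h => hi (hne' i h).1
        have := congrFun hf i
        rw [if_neg hi, if_neg hi'] at this
        exact this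
    have hp2 : p.2 = q.2 := by
      funext i
      have e := congrFun hp1 i
      by_cases hi : p.2 i ≠ p.1 i
      · have hi' := (hne i hi).1
        have a1 := (hp.2.2 i).resolve_left hi
        have a2 := (hq.2.2 i).resolve_left hi'
        rw [a1, a2, e]
      · have hi' : ¬ (q.2 i ≠ q.1 i) := fun h => hi (hne' i h).1
        push Not at hi hi'
        rw [hi, hi', e]
    exact Prod.ext hp1 hp2

theorem frob (s : ι → G) :
    ∑ w : ι → ZMod 3, ∑ w' : ι → ZMod 3,
      (if cls s w = cls s w' then ((∏ i, mm (w i) (w' i) : ℤ) : ℝ) else 0) ^ 2 = ((prs s).card : ℝ) := by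
  rw [← Fintype.sum_prod_type (f := fun p : (ι → ZMod 3) × (ι → ZMod 3) =>
    (if cls s p.1 = cls s p.2 then ((∏ i, mm (p.1 i) (p.2 i) : ℤ) : ℝ) else 0) ^ 2)]
  unfold prs
  rw [Finset.card_filter, Nat.cast_sum]
  apply Finset.sum_congr rfl
  intro p _
  rw [Nat.cast_ite, Nat.cast_one, Nat.cast_zero]
  by_cases hc : cls s p.1 = cls s p.2
  · rw [if_pos hc]
    have h1 : ((∏ i, mm (p.1 i) (p.2 i) : ℤ)) ^ 2 =
        if (∀ i, p.2 i = p.1 i ∨ p.2 i = p.1 i + 1) then 1 else 0 := by
      rw [← Finset.prod_pow]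
      simp only [mm_sq]
      by_cases hall : ∀ i, p.2 i = p.1 i ∨ p.2 i = p.1 i + 1
      · rw [if_pos hall]
        apply Finset.prod_eq_one
        intro i _
        rw [if_pos (hall i)]
      · rw [if_neg hall]
        push Not at hall
        obtain ⟨i, hi⟩ := hall
        apply Finset.prod_eq_zero (Finset.mem_univ i)
        rw [if_neg]
        push Not
        exact hi
    have h2 : ((∏ i, mm (p.1 i) (p.2 i) : ℤ) : ℝ) ^ 2 =
        ((((∏ i, mm (p.1 i) (p.2 i) : ℤ)) ^ 2 : ℤ) : ℝ) := by rw [Int.cast_pow]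
    rw [h2, h1]
    by_cases hall : ∀ i, p.2 i = p.1 i ∨ p.2 i = p.1 i + 1
    · rw [if_pos hall, if_pos ⟨hc, hall⟩]
      norm_num
    · rw [if_neg hall, if_neg (fun h => hall h.2)]
      norm_num
  · rw [if_neg hc, if_neg (fun h => hc h.1)]
    norm_num

theorem step1 (s : ι → G) :
    ((9 : ℝ)) ^ (Fintype.card ι) ≤ ((jset s).card : ℝ) * ((prs s).card : ℝ) := by
  obtain ⟨P, Q, hPQ⟩ := fac s
  have h := trace_sq_le P Q
  have h1 : ∑ w, (P * Q) w w = 3 ^ (Fintype.card ι) := by
    have : ∀ w, (P * Q) w w = 1 := by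
      intro w
      rw [hPQ, if_pos rfl]
      have : ∏ i, mm (w i) (w i) = 1 := Finset.prod_eq_one (fun i _ => mm_self (w i))
      rw [this]
      norm_num
    simp only [this]
    rw [Finset.sum_const, Finset.card_univ, Fintype.card_fun, ZMod.card]
    simp
  have h2 : ∑ w, ∑ w', ((P * Q) w w') ^ 2 = ((prs s).card : ℝ) := by
    rw [← frob s]
    simp only [hPQ]
  rw [h1, h2, Fintype.card_coe] at h
  calc (9 : ℝ) ^ (Fintype.card ι) = ((3 : ℝ) ^ (Fintype.card ι)) ^ 2 := by
        rw [← pow_mul, mul_comm, pow_mul]; norm_num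
    _ ≤ _ := h

/-- Harris - Kleitman -/
theorem harris (s : ι → G) :
    2 ^ (Fintype.card ι) * ∑ W : Finset ι, (sums s Wᶜ).card * (sums s W).card ≤
      (∑ W : Finset ι, (sums s W).card) ^ 2 := by
  classical
  have hmono : ∀ {W W' : Finset ι}, W ⊆ W' → sums s W ⊆ sums s W' := by
    intro W W' h
    unfold sums
    exact Finset.image_subset_image (Finset.powerset_mono.2 h)
  set T : Finset G := sums s univ with hT
  have hsub : ∀ W, sums s W ⊆ T := fun W => hmono (Finset.subset_univ W)
  let UA : G → Finset (Finset ι) := fun b => univ.filter (fun W => b ∈ sums s W)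
  let LA : G → Finset (Finset ι) := fun a => univ.filter (fun W => a ∈ sums s Wᶜ)
  have hU : ∀ b, IsUpperSet (UA b : Set (Finset ι)) := by
    intro b W W' hWW' hW
    simp only [UA, Finset.coe_filter, Finset.mem_univ, true_and, Set.mem_ofPred_eq] at hW ⊢
    exact hmono hWW' hW
  have hL : ∀ a, IsLowerSet (LA a : Set (Finset ι)) := by
    intro a W W' hWW' hW
    simp only [LA, Finset.coe_filter, Finset.mem_univ, true_and, Set.mem_ofPred_eq] at hW ⊢
    exact hmono (Finset.compl_subset_compl.2 hWW') hW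
  have hk : ∀ a b, 2 ^ (Fintype.card ι) * (UA b ∩ LA a).card ≤ (UA b).card * (LA a).card :=
    fun a b => (hU b).card_inter_le_finset (hL a)
  have hcard : ∀ (f : Finset ι → Finset ι), (∀ W, sums s (f W) ⊆ T) →
      ∑ a ∈ T, (univ.filter (fun W : Finset ι => a ∈ sums s (f W))).card =
        ∑ W : Finset ι, (sums s (f W)).card := by
    intro f hf
    simp only [Finset.card_filter]
    rw [Finset.sum_comm]
    apply Finset.sum_congr rfl
    intro W _
    rw [← Finset.card_filter]
    congr 1
    ext a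
    rw [Finset.mem_filter]
    exact ⟨fun h => h.2, fun h => ⟨hf W h, h⟩⟩
  have e1 : ∑ b ∈ T, (UA b).card = ∑ W : Finset ι, (sums s W).card :=
    hcard (fun W => W) hsub
  have e2 : ∑ a ∈ T, (LA a).card = ∑ W : Finset ι, (sums s W).card := by
    have h1 := hcard (fun W => Wᶜ) (fun W => hsub _)
    have h2 : ∑ W : Finset ι, (sums s Wᶜ).card = ∑ W : Finset ι, (sums s W).card :=
      Fintype.sum_equiv ⟨compl, compl, compl_compl, compl_compl⟩ _ _ (fun W => rfl)
    rw [← h2]
    exact h1
  have e3 : ∑ a ∈ T, ∑ b ∈ T, (UA b ∩ LA a).card =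
      ∑ W : Finset ι, (sums s Wᶜ).card * (sums s W).card := by
    have h1 : ∀ a b, (UA b ∩ LA a).card =
        ∑ W : Finset ι, (if a ∈ sums s Wᶜ then 1 else 0) * (if b ∈ sums s W then 1 else 0) := by
      intro a b
      have : UA b ∩ LA a = univ.filter (fun W : Finset ι => a ∈ sums s Wᶜ ∧ b ∈ sums s W) := by
        ext W
        simp only [UA, LA, Finset.mem_inter, Finset.mem_filter, Finset.mem_univ, true_and]
        tauto
      rw [this, Finset.card_filter]
      apply Finset.sum_congr rfl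
      intro W _
      by_cases h1 : a ∈ sums s Wᶜ <;> by_cases h2 : b ∈ sums s W <;> simp [h1, h2]
    simp only [h1]
    have h2 : ∀ a ∈ T, ∑ b ∈ T, ∑ W : Finset ι, (if a ∈ sums s Wᶜ then 1 else 0) *
        (if b ∈ sums s W then 1 else 0) =
        ∑ W : Finset ι, (if a ∈ sums s Wᶜ then 1 else 0) * (sums s W).card := by
      intro a _
      rw [Finset.sum_comm]
      apply Finset.sum_congr rfl
      intro W _
      rw [← Finset.mul_sum]
      congr 1
      rw [← Finset.card_filter]
      congr 1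
      ext b
      rw [Finset.mem_filter]
      exact ⟨fun h => h.2, fun h => ⟨hsub W h, h⟩⟩
    rw [Finset.sum_congr rfl h2, Finset.sum_comm]
    apply Finset.sum_congr rfl
    intro W _
    rw [← Finset.sum_mul]
    congr 1
    rw [← Finset.card_filter]
    congr 1
    ext a
    rw [Finset.mem_filter]
    exact ⟨fun h => h.2, fun h => ⟨hsub _ h, h⟩⟩
  calc 2 ^ (Fintype.card ι) * ∑ W : Finset ι, (sums s Wᶜ).card * (sums s W).card
      = ∑ a ∈ T, ∑ b ∈ T, 2 ^ (Fintype.card ι) * (UA b ∩ LA a).card := by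
        rw [← e3, Finset.mul_sum]
        apply Finset.sum_congr rfl
        intro a _
        rw [Finset.mul_sum]
    _ ≤ ∑ a ∈ T, ∑ b ∈ T, (UA b).card * (LA a).card :=
        Finset.sum_le_sum (fun a _ => Finset.sum_le_sum (fun b _ => hk a b))
    _ = (∑ b ∈ T, (UA b).card) * ∑ a ∈ T, (LA a).card := by
        rw [Finset.sum_mul_sum, Finset.sum_comm]
    _ = (∑ W : Finset ι, (sums s W).card) ^ 2 := by rw [e1, e2, sq]

/-- the main inequality, in natural numbers -/
theorem main (s : ι → G) :
    18 ^ (Fintype.card ι) ≤ (∑ W : Finset ι, (sums s W).card) ^ 2 *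
      ∑ t ∈ triples s, 3 ^ (Fintype.card ι - (t.1.card + t.2.1.card + t.2.2.card)) := by
  have h1 := step1 s
  have h2 : 9 ^ (Fintype.card ι) ≤ (jset s).card * (prs s).card := by exact_mod_cast h1
  calc 18 ^ (Fintype.card ι) = 2 ^ (Fintype.card ι) * 9 ^ (Fintype.card ι) := by
        rw [← mul_pow]; norm_num
    _ ≤ 2 ^ (Fintype.card ι) * ((jset s).card * (prs s).card) := Nat.mul_le_mul_left _ h2
    _ = (2 ^ (Fintype.card ι) * (jset s).card) * (prs s).card := by ring
    _ ≤ (2 ^ (Fintype.card ι) * ∑ W : Finset ι, (sums s Wᶜ).card * (sums s W).card) *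
        (prs s).card := Nat.mul_le_mul_right _ (Nat.mul_le_mul_left _ (card_jset s))
    _ ≤ _ := Nat.mul_le_mul (harris s) (card_prs s)

end

end Pool.Agent.Lib.RHO4
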